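import Pool.Agent.Results.MP_1d7ced_al.FreeTransitiveBireversible

/-! Invertible transducers which are bireversible over an invariant set of letters: this means that
only the trivial element has a trivial section at a letter of the set. -/

set_option autoImplicit false

namespace Pool.Agent.Y35.TB

open Pool.Agent.Results.MP_1d7ced_al.FreeTransitiveBireversible

variable {Q X : Type*} (A : InvTransducer Q X)

/-- `O` is invariant under the transducer. -/
def Inv (O : Set X) : Prop := ∀ q x, x ∈ O ↔ A.out q x ∈ O

/-- The transducer is bireversible over `O`. -/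
def BireversibleOn (O : Set X) : Prop :=
  (∀ a ∈ O, Function.Bijective fun q : Q => A.δ q a) ∧
    ∀ b ∈ O, Function.Bijective fun q : Q => A.δ q ((A.out q).symm b)

lemma perm_cons (q : Q) (x : X) (w : List X) :
    A.perm q (x :: w) = A.out q x :: A.perm (A.δ q x) w := rfl

lemma perm_nil (q : Q) : A.perm q [] = [] := rfl

lemma perm_inv_cons (q : Q) (x : X) (w : List X) :
    (A.perm q)⁻¹ (x :: w) =
      (A.out q).symm x :: (A.perm (A.δ q ((A.out q).symm x)))⁻¹ w := by
  rw [Equiv.Perm.inv_eq_iff_eq, perm_cons, Equiv.apply_symm_apply]
  congr 1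
  exact (Equiv.apply_symm_apply (A.perm (A.δ q ((A.out q).symm x))) w).symm

/-! ### Words in the states -/

/-- The value of a word in the states and their inverses. -/
def V : List (Q × Bool) → Equiv.Perm (List X)
  | [] => 1
  | (q, true) :: u => A.perm q * V u
  | (q, false) :: u => (A.perm q)⁻¹ * V u

/-- The letter obtained from a letter. -/
def R : List (Q × Bool) → X → X
  | [], x => x
  | (q, true) :: u, x => A.out q (R u x)
  | (q, false) :: u, x => (A.out q).symm (R u x)

/-- The section as a word. -/
def T : List (Q × Bool) → X → List (Q × Bool)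
  | [], _ => []
  | (q, true) :: u, x => (A.δ q (R A u x), true) :: T u x
  | (q, false) :: u, x => (A.δ q ((A.out q).symm (R A u x)), false) :: T u x

lemma V_cons (u : List (Q × Bool)) (x : X) (w : List X) :
    V A u (x :: w) = R A u x :: V A (T A u x) w := by
  induction u with
  | nil => rfl
  | cons a u ih =>
    obtain ⟨q, b⟩ := a
    cases b with
    | true =>
      change A.perm q (V A u (x :: w)) = _
      rw [ih, perm_cons]; rfl
    | false =>
      change (A.perm q)⁻¹ (V A u (x :: w)) = _
      rw [ih, perm_inv_cons]; rfl

lemma V_nil (u : List (Q × Bool)) : V A u [] = [] := by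
  induction u with
  | nil => rfl
  | cons a u ih =>
    obtain ⟨q, b⟩ := a
    cases b with
    | true =>
      change A.perm q (V A u []) = _
      rw [ih, perm_nil]
    | false =>
      change (A.perm q)⁻¹ (V A u []) = _
      rw [ih, Equiv.Perm.inv_eq_iff_eq, perm_nil]

lemma T_length (u : List (Q × Bool)) (x : X) : (T A u x).length = u.length := by
  induction u with
  | nil => rfl
  | cons a u ih =>
    obtain ⟨q, b⟩ := a
    cases b with
    | true => simp [T, ih]
    | false => simp [T, ih]

lemma R_mem {O : Set X} (hO : Inv A O) (u : List (Q × Bool)) (x : X) (hx : x ∈ O) :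
    R A u x ∈ O := by
  induction u with
  | nil => exact hx
  | cons a u ih =>
    obtain ⟨q, b⟩ := a
    cases b with
    | true => exact (hO q _).mp ih
    | false =>
      refine (hO q _).mpr ?_
      change A.out q ((A.out q).symm (R A u x)) ∈ O
      rw [Equiv.apply_symm_apply]; exact ih

lemma T_inj {O : Set X} (hO : Inv A O) (hB : BireversibleOn A O) (x : X) (hx : x ∈ O) :
    ∀ u v : List (Q × Bool), T A u x = T A v x → u = v := by
  intro u
  induction u with
  | nil =>
    intro v h
    have := congrArg List.length h
    rw [T_length, T_length] at this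
    exact (List.length_eq_zero_iff.mp this.symm).symm
  | cons a u ih =>
    intro v h
    cases v with
    | nil =>
      have := congrArg List.length h
      rw [T_length, T_length] at this
      simp at this
    | cons c v =>
      obtain ⟨q, b⟩ := a
      obtain ⟨p, d⟩ := c
      cases b with
      | true =>
        cases d with
        | true =>
          simp only [T, List.cons.injEq, Prod.mk.injEq, and_true] at h
          have h1 := ih v h.2
          subst h1
          have h2 := (hB.1 _ (R_mem A hO u x hx)).1 h.1
          rw [h2]
        | false => simp [T] at h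
      | false =>
        cases d with
        | true => simp [T] at h
        | false =>
          simp only [T, List.cons.injEq, Prod.mk.injEq, and_true] at h
          have h1 := ih v h.2
          subst h1
          have h2 := (hB.2 _ (R_mem A hO u x hx)).1 h.1
          rw [h2]

lemma V_append (u v : List (Q × Bool)) : V A (u ++ v) = V A u * V A v := by
  induction u with
  | nil => rw [List.nil_append]; exact (one_mul _).symm
  | cons a u ih =>
    obtain ⟨q, b⟩ := a
    cases b with
    | true =>
      change A.perm q * V A (u ++ v) = A.perm q * V A u * V A v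
      rw [ih, mul_assoc]
    | false =>
      change (A.perm q)⁻¹ * V A (u ++ v) = (A.perm q)⁻¹ * V A u * V A v
      rw [ih, mul_assoc]

lemma exists_V (f : Equiv.Perm (List X)) (hf : f ∈ A.group) : ∃ u, V A u = f := by
  induction hf using Subgroup.closure_induction with
  | mem f hf =>
    obtain ⟨q, rfl⟩ := hf
    exact ⟨[(q, true)], mul_one _⟩
  | one => exact ⟨[], rfl⟩
  | mul f g _ _ h1 h2 =>
    obtain ⟨u, rfl⟩ := h1
    obtain ⟨v, rfl⟩ := h2
    exact ⟨u ++ v, V_append A u v⟩
  | inv f _ h =>
    obtain ⟨u, rfl⟩ := h
    clear * -
    induction u with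
    | nil => exact ⟨[], inv_one.symm⟩
    | cons a u ih =>
      obtain ⟨v, hv⟩ := ih
      obtain ⟨q, b⟩ := a
      cases b with
      | true =>
        refine ⟨v ++ [(q, false)], ?_⟩
        rw [V_append, hv]
        change _ * ((A.perm q)⁻¹ * 1) = (A.perm q * V A u)⁻¹
        rw [mul_one, mul_inv_rev]
      | false =>
        refine ⟨v ++ [(q, true)], ?_⟩
        rw [V_append, hv]
        change _ * (A.perm q * 1) = ((A.perm q)⁻¹ * V A u)⁻¹
        rw [mul_one, mul_inv_rev, inv_inv]

/-- Bireversibility over `O` implies that sections at the letters of `O` are injective. -/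
theorem section_trivial [Finite Q] {O : Set X} (hO : Inv A O) (hB : BireversibleOn A O)
    (f : Equiv.Perm (List X)) (hf : f ∈ A.group) (x y : X) (hx : x ∈ O)
    (h : ∀ w, f (x :: w) = y :: w) : f = 1 := by
  obtain ⟨u, rfl⟩ := exists_V A f hf
  -- the section is trivial
  have h1 : V A (T A u x) = 1 := by
    ext1 w
    have := h w
    rw [V_cons, List.cons.injEq] at this
    exact this.2
  have hstep : ∀ v : List (Q × Bool), V A v = 1 → V A (T A v x) = 1 := by
    intro v hv
    ext1 w
    have h2 : V A v (x :: w) = x :: w := by rw [hv]; rfl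
    rw [V_cons, List.cons.injEq] at h2
    exact h2.2
  let L := {v : List (Q × Bool) // v.length = u.length}
  have hfin : Finite L := (List.finite_length_eq (Q × Bool) u.length)
  let F : L → L := fun v => ⟨T A v.1 x, (T_length A v.1 x).trans v.2⟩
  have hF : Function.Injective F := fun v w hvw =>
    Subtype.ext (T_inj A hO hB x hx _ _ (congrArg Subtype.val hvw))
  obtain ⟨k, hk, hper⟩ : ∃ k, 0 < k ∧ F^[k] ⟨u, rfl⟩ = ⟨u, rfl⟩ := by
    obtain ⟨i, j, hij, he⟩ := Finite.exists_ne_map_eq_of_infinite (fun n : ℕ => F^[n] ⟨u, rfl⟩)
    have key : ∀ i j : ℕ, i < j → F^[i] ⟨u, rfl⟩ = F^[j] ⟨u, rfl⟩ →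
        ∃ k, 0 < k ∧ F^[k] ⟨u, rfl⟩ = ⟨u, rfl⟩ := by
      intro i j hij he
      refine ⟨j - i, by omega, ?_⟩
      apply hF.iterate i
      rw [← Function.iterate_add_apply, Nat.add_sub_cancel' hij.le]
      exact he.symm
    rcases lt_or_gt_of_ne hij with h2 | h2
    · exact key i j h2 he
    · exact key j i h2 he.symm
  have h3 : ∀ m : ℕ, V A (F^[m + 1] ⟨u, rfl⟩).1 = 1 := by
    intro m
    induction m with
    | zero => exact h1
    | succ m ih =>
      rw [Function.iterate_succ_apply']
      exact hstep _ ih
  have h4 := h3 (k - 1)
  rw [Nat.sub_add_cancel hk, hper] at h4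
  exact h4

/-- If sections at the letters of `O` are injective then the minimal transducer is bireversible
over `O`. -/
theorem bireversible_of [Finite Q] {O : Set X} (hO : Inv A O)
    (h : ∀ f ∈ A.group, ∀ x ∈ O, ∀ y, (∀ w, f (x :: w) = y :: w) → f = 1) :
    BireversibleOn A.minimal O := by
  have hmem : ∀ q, A.perm q ∈ A.group := fun q => Subgroup.subset_closure ⟨q, rfl⟩
  have h1 : ∀ p q a, a ∈ O → A.act (A.δ p a) = A.act (A.δ q a) → A.act p = A.act q := by
    intro p q a ha he
    have h3 : A.perm p * (A.perm q)⁻¹ = 1 := by
      refine h _ (Subgroup.mul_mem _ (hmem p) (Subgroup.inv_mem _ (hmem q))) (A.out q a)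
        ((hO q a).mp ha) (A.out p a) (fun w => ?_)
      rw [Equiv.Perm.mul_apply, perm_inv_cons, Equiv.symm_apply_apply, perm_cons,
        A.perm_eq_iff.mpr he]
      congr 1
      exact Equiv.apply_symm_apply (A.perm (A.δ q a)) w
    exact A.perm_eq_iff.mp (mul_inv_eq_one.mp h3)
  have h2 : ∀ p q a a', a' ∈ O → A.out p a = A.out q a' →
      A.act (A.δ p a) = A.act (A.δ q a') → A.act p = A.act q := by
    intro p q a a' ha hout he
    have h3 : (A.perm p)⁻¹ * A.perm q = 1 := by
      refine h _ (Subgroup.mul_mem _ (Subgroup.inv_mem _ (hmem p)) (hmem q)) a' ha a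
        (fun w => ?_)
      rw [Equiv.Perm.mul_apply, perm_cons, ← hout, perm_inv_cons, Equiv.symm_apply_apply,
        A.perm_eq_iff.mpr he]
      congr 1
      exact Equiv.symm_apply_apply (A.perm (A.δ q a')) w
    exact A.perm_eq_iff.mp (inv_mul_eq_one.mp h3)
  refine ⟨fun a ha => ?_, fun b hb => ?_⟩
  · apply Finite.injective_iff_bijective.mp
    intro c c' hc
    induction c using Quotient.inductionOn with
    | h p =>
      induction c' using Quotient.inductionOn with
      | h q =>
        have h3 : (Quotient.mk A.sameAction (A.δ p a)) = Quotient.mk A.sameAction (A.δ q a) := hc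
        have h4 : A.act (A.δ p a) = A.act (A.δ q a) := Quotient.exact h3
        exact Quotient.sound (s := A.sameAction) (h1 p q a ha h4)
  · apply Finite.injective_iff_bijective.mp
    intro c c' hc
    induction c using Quotient.inductionOn with
    | h p =>
      induction c' using Quotient.inductionOn with
      | h q =>
        have h3 : (Quotient.mk A.sameAction (A.δ p ((A.out p).symm b))) =
          Quotient.mk A.sameAction (A.δ q ((A.out q).symm b)) := hc
        have h4 : A.act (A.δ p ((A.out p).symm b)) = A.act (A.δ q ((A.out q).symm b)) :=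
          Quotient.exact h3
        refine Quotient.sound (s := A.sameAction) (h2 p q _ _ ?_ (by simp) h4)
        refine (hO q _).mpr ?_
        rw [Equiv.apply_symm_apply]; exact hb

/-! ### The minimal transducer generates the same group -/

lemma minimal_act (q : Q) : A.minimal.act (Quotient.mk A.sameAction q) = A.act q := by
  funext w
  induction w generalizing q with
  | nil => rfl
  | cons x w ih =>
    change A.out q x :: A.minimal.act (Quotient.mk A.sameAction (A.δ q x)) w = _
    rw [ih]; rfl

lemma minimal_perm (q : Q) : A.minimal.perm (Quotient.mk A.sameAction q) = A.perm q := by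
  ext1 w
  exact congrFun (minimal_act A q) w

lemma minimal_group : A.minimal.group = A.group := by
  unfold InvTransducer.group
  congr 1
  ext f
  constructor
  · rintro ⟨c, rfl⟩
    induction c using Quotient.inductionOn with
    | h q => exact ⟨q, (minimal_perm A q).symm⟩
  · rintro ⟨q, rfl⟩
    exact ⟨Quotient.mk A.sameAction q, minimal_perm A q⟩

lemma minimal_inv {O : Set X} (hO : Inv A O) : Inv A.minimal O := by
  intro c x
  induction c using Quotient.inductionOn with
  | h q => exact hO q x

/-- **General criterion**: the minimal transducer is bireversible over the invariant set `O` of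
letters if and only if only the trivial element has a trivial section at a letter of `O`. -/
theorem bireversibleOn_iff [Finite Q] {O : Set X} (hO : Inv A O) :
    BireversibleOn A.minimal O ↔
      ∀ f ∈ A.group, ∀ x ∈ O, ∀ y, (∀ w, f (x :: w) = y :: w) → f = 1 := by
  constructor
  · intro h f hf x hx y hw
    rw [← minimal_group A] at hf
    exact section_trivial A.minimal (minimal_inv A hO) h f hf x y hx hw
  · exact bireversible_of A hO

end Pool.Agent.Y35.TB
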