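import Pool.Agent.Y35.TB.Dual

/-! Transducers generating free nonabelian groups. -/

set_option autoImplicit false

namespace Pool.Agent.Y35.TB

open Pool.Agent.H149R3 Pool.Agent.Results.MP_1d7ced_al.FreeTransitiveBireversible

universe u v

/-- Restriction of a self-similar structure to an invariant set of letters. -/
def res {G : Type*} {X : Type*} [Group G] (M : SS G X) (O : Set X)
    (hO : ∀ g, ∀ x ∈ O, M.act g x ∈ O) : SS G O where
  act := permHomOf (fun g x => ⟨M.act g x.1, hO g x.1 x.2⟩)
    (fun x => Subtype.ext (M.act_one _)) (fun g h x => Subtype.ext (M.act_mul _ _ _))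
  sec g x := M.sec g x.1
  sec_mul g h x := M.sec_mul g h x.1

/-- In a faithful self-similar action of a nonabelian free group there is a letter such that no
nontrivial element fixes it with trivial section. -/
theorem exists_free_letter {ι : Type v} {X : Type u} [Finite X] (M : SS (FreeGroup ι) X)
    (h2 : ∃ i j : ι, i ≠ j)
    (hfaith : ∀ g, M.act g = 1 → (∀ x, M.sec g x = 1) → g = 1) :
    ∃ x₀, ∀ g, M.act g x₀ = x₀ → M.sec g x₀ = 1 → g = 1 := by
  classical
  cases nonempty_fintype X
  set N := Fintype.card (Equiv.Perm X) with hN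
  have hNpos : 0 < N := Fintype.card_pos
  have hpow : ∀ g, M.act (g ^ N) = 1 := fun g => by rw [_root_.map_pow, hN, pow_card_eq_one]
  have key : ∃ x, ∀ g ∈ M.triSet {x}, g = 1 := by
    by_contra hcon
    push Not at hcon
    have hall : ∀ F : Finset X, ∃ g ∈ M.triSet F, g ≠ 1 := by
      intro F
      induction F using Finset.induction_on with
      | empty =>
        obtain ⟨i, j, hij⟩ := h2
        refine ⟨FreeGroup.of i ^ N, ⟨hpow _, by simp⟩, ?_⟩
        intro h
        exact FreeGroup.of_ne_one i ((pow_eq_one_iff_left hNpos.ne').mp h)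
      | insert x F _ ih =>
        obtain ⟨a, ha, ha1⟩ := ih
        obtain ⟨b, hb, hb1⟩ := hcon x
        obtain ⟨d, e, hde⟩ := exists_not_commute h2 a b ha1 hb1 N hNpos
        set g := FreeGroup.mk [d] ^ N * FreeGroup.mk [e] ^ N with hg
        have hg1 : M.act g = 1 := by rw [hg, _root_.map_mul, hpow, hpow, one_mul]
        set c := g * b * g⁻¹ with hc
        have hc1 : c ∈ M.triSet {x} := M.triSet_conj hb hg1
        have h3 : a * c * a⁻¹ * c⁻¹ ∈ M.triSet {x} :=
          M.triSet_mul (M.triSet_conj hc1 ha.1) (M.triSet_inv hc1)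
        have h4 : a * c * a⁻¹ * c⁻¹ ∈ M.triSet F := by
          have := M.triSet_mul ha (M.triSet_conj (M.triSet_inv ha) hc1.1)
          have h5 : a * (c * a⁻¹ * c⁻¹) = a * c * a⁻¹ * c⁻¹ := by group
          rwa [h5] at this
        refine ⟨a * c * a⁻¹ * c⁻¹, ⟨h4.1, ?_⟩, ?_⟩
        · intro y hy
          rcases Finset.mem_insert.mp hy with rfl | hy
          · exact h3.2 y (Finset.mem_singleton_self y)
          · exact h4.2 y hy
        · intro h
          apply hde
          rw [mul_inv_eq_one, mul_inv_eq_iff_eq_mul] at h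
          exact h
    obtain ⟨g, hg, hg1⟩ := hall Finset.univ
    exact hg1 (hfaith g hg.1 (fun x => hg.2 x (Finset.mem_univ x)))
  obtain ⟨x₀, hx₀⟩ := key
  refine ⟨x₀, fun g h1 h4 => ?_⟩
  have h5 : ∀ n : ℕ, M.act (g ^ n) x₀ = x₀ ∧ M.sec (g ^ n) x₀ = 1 := by
    intro n
    induction n with
    | zero => rw [pow_zero]; exact ⟨M.act_one _, M.sec_one _⟩
    | succ n ih =>
      rw [pow_succ, M.act_mul, M.sec_mul, h1, h4, mul_one]
      exact ih
  have h6 : g ^ N = 1 := hx₀ _ ⟨hpow g, fun x hx => by
    rw [Finset.mem_singleton.mp hx]; exact (h5 N).2⟩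
  exact (pow_eq_one_iff_left hNpos.ne').mp h6

variable {Q X : Type*}

lemma two_of (A : InvTransducer Q X) (hfree : IsFreeGroup A.group)
    (hnc : ∃ g h : A.group, g * h ≠ h * g) :
    ∃ i j : IsFreeGroup.Generators A.group, i ≠ j := by
  let e : FreeGroup (IsFreeGroup.Generators A.group) ≃* A.group :=
    (IsFreeGroup.toFreeGroup A.group).symm
  by_contra hcon
  push Not at hcon
  obtain ⟨g, h, hgh⟩ := hnc
  apply hgh
  have := congrArg e (comm_of_subsingleton hcon (e.symm g) (e.symm h))
  simpa using this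

/-- There is a letter such that no nontrivial element fixes it with trivial section. -/
theorem exists_free_letter' [Finite X] (A : InvTransducer Q X) (hfree : IsFreeGroup A.group)
    (hnc : ∃ g h : A.group, g * h ≠ h * g) :
    ∃ x₀, ∀ g : A.group, A.root g x₀ = x₀ → A.sect g x₀ = 1 → g = 1 := by
  let e : FreeGroup (IsFreeGroup.Generators A.group) ≃* A.group :=
    (IsFreeGroup.toFreeGroup A.group).symm
  let M := transport A.ss e
  obtain ⟨x₀, hx₀⟩ := exists_free_letter M (two_of A hfree hnc) (by
    intro g h1 h2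
    have h3 : e g = 1 := by
      apply A.ss_faithful (e g) h1
      intro x
      have := h2 x
      exact (MulEquiv.map_eq_one_iff e.symm).mp this
    exact (MulEquiv.map_eq_one_iff e).mp h3)
  refine ⟨x₀, fun g h1 h2 => ?_⟩
  have h3 : e.symm g = 1 := by
    apply hx₀
    · change A.root (e (e.symm g)) x₀ = x₀
      rw [MulEquiv.apply_symm_apply]; exact h1
    · change e.symm (A.sect (e (e.symm g)) x₀) = 1
      rw [MulEquiv.apply_symm_apply, h2, map_one]
  exact (MulEquiv.map_eq_one_iff e.symm).mp h3

/-- Over an invariant set of letters none of which is fixed with trivial section by a nontrivial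
element all sections are nontrivial. -/
theorem eq_one_of_sect' [Finite Q] [Finite X] (A : InvTransducer Q X)
    (hfree : IsFreeGroup A.group) (hnc : ∃ g h : A.group, g * h ≠ h * g) (O : Set X)
    (hO : ∀ g : A.group, ∀ x ∈ O, A.root g x ∈ O)
    (hfix : ∀ g : A.group, ∀ x ∈ O, A.root g x = x → A.sect g x = 1 → g = 1)
    (f : A.group) (x : X) (hx : x ∈ O) (hf : A.sect f x = 1) : f = 1 := by
  classical
  cases nonempty_fintype Q
  let e : FreeGroup (IsFreeGroup.Generators A.group) ≃* A.group :=
    (IsFreeGroup.toFreeGroup A.group).symm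
  have hOM : ∀ g, ∀ x ∈ O, (transport A.ss e).act g x ∈ O := fun g x hx => hO (e g) x hx
  let M := res (transport A.ss e) O hOM
  have two := two_of A hfree hnc
  have hM1 : M.Free1 := by
    rintro g ⟨y, hy⟩ h1 h2
    have h3 : e g = 1 := by
      apply hfix (e g) y hy
      · exact congrArg Subtype.val h1
      · exact (MulEquiv.map_eq_one_iff e.symm).mp h2
    exact (MulEquiv.map_eq_one_iff e).mp h3
  let S : Finset (FreeGroup (IsFreeGroup.Generators A.group)) :=
    Finset.univ.image (fun q => e.symm (A.st q)) ∪ Finset.univ.image (fun q => (e.symm (A.st q))⁻¹)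
  have hS1 : ∀ q, e.symm (A.st q) ∈ S := fun q =>
    Finset.mem_union_left _ (Finset.mem_image_of_mem _ (Finset.mem_univ q))
  have hS2 : ∀ q, (e.symm (A.st q))⁻¹ ∈ S := fun q =>
    Finset.mem_union_right _ (Finset.mem_image_of_mem (fun q => (e.symm (A.st q))⁻¹)
      (Finset.mem_univ q))
  have hinv : ∀ s ∈ S, s⁻¹ ∈ S := by
    intro s hs
    rcases Finset.mem_union.mp hs with h | h
    · obtain ⟨q, _, rfl⟩ := Finset.mem_image.mp h
      exact hS2 q
    · obtain ⟨q, _, rfl⟩ := Finset.mem_image.mp h
      rw [inv_inv]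
      exact hS1 q
  have hsec1 : ∀ q x, M.sec (e.symm (A.st q)) x = e.symm (A.st (A.δ q x.1)) := by
    intro q x
    show e.symm (A.sect (e (e.symm (A.st q))) x.1) = _
    rw [MulEquiv.apply_symm_apply, A.sect_st]
  have hsec : ∀ s ∈ S, ∀ x, M.sec s x ∈ S := by
    intro s hs x
    rcases Finset.mem_union.mp hs with h | h
    · obtain ⟨q, _, rfl⟩ := Finset.mem_image.mp h
      rw [hsec1]
      exact hS1 _
    · obtain ⟨q, _, rfl⟩ := Finset.mem_image.mp h
      have h1 := M.sec_inv (e.symm (A.st q)) (M.act (e.symm (A.st q))⁻¹ x)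
      rw [M.act_act_inv] at h1
      rw [h1, hsec1]
      exact hS2 _
  have hgen : Subgroup.closure (S : Set (FreeGroup (IsFreeGroup.Generators A.group))) = ⊤ := by
    rw [eq_top_iff]
    intro g _
    have key : ∀ (k : Equiv.Perm (List X)) (hk : k ∈ A.group), e.symm ⟨k, hk⟩ ∈
        Subgroup.closure (S : Set (FreeGroup (IsFreeGroup.Generators A.group))) := by
      intro k hk
      induction hk using Subgroup.closure_induction with
      | mem k hk =>
        obtain ⟨q, rfl⟩ := hk
        exact Subgroup.subset_closure (hS1 q)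
      | one =>
        have : e.symm (⟨1, Subgroup.one_mem _⟩ : A.group) = 1 := map_one e.symm
        rw [this]
        exact Subgroup.one_mem _
      | mul k l hk hl ihk ihl =>
        have : e.symm (⟨k * l, Subgroup.mul_mem _ hk hl⟩ : A.group) =
            e.symm ⟨k, hk⟩ * e.symm ⟨l, hl⟩ := map_mul e.symm ⟨k, hk⟩ ⟨l, hl⟩
        rw [this]
        exact Subgroup.mul_mem _ ihk ihl
      | inv k hk ihk =>
        have : e.symm (⟨k⁻¹, Subgroup.inv_mem _ hk⟩ : A.group) =
            (e.symm ⟨k, hk⟩)⁻¹ := map_inv e.symm ⟨k, hk⟩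
        rw [this]
        exact Subgroup.inv_mem _ ihk
    have := key (e g).1 (e g).2
    rwa [Subtype.coe_eta, MulEquiv.symm_apply_apply] at this
  have hgood : M.Good S := ⟨hM1, hgen, hsec, two⟩
  have h1 : M.sec (e.symm f) ⟨x, hx⟩ = 1 := by
    show e.symm (A.sect (e (e.symm f)) x) = 1
    rw [MulEquiv.apply_symm_apply, hf, map_one]
  exact (MulEquiv.map_eq_one_iff e.symm).mp (hgood.eq_one hinv h1)

end Pool.Agent.Y35.TB
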